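import Pool.Agent.BC.Stmts

/-!
# BC, module CUR: a bounded separated dyadic tree gives a Lipschitz nowhere differentiable curve
-/

set_option autoImplicit false

open Finset Filter Topology

noncomputable section

namespace Pool.Agent.BC.H36

variable {X : Type} [NormedAddCommGroup X] [NormedSpace ℝ X]

/-- the values of the curve at the dyadic points of level `n` -/
def GG (y : ℕ → ℕ → X) (n j : ℕ) : X := ((2 : ℝ) ^ n)⁻¹ • ∑ i ∈ range j, y n i

/-- the approximations of the curve -/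
def gn (y : ℕ → ℕ → X) (t : ℝ) (n : ℕ) : X := GG y n ⌊(2 : ℝ) ^ n * t⌋₊

theorem GG_succ (y : ℕ → ℕ → X) (n j : ℕ) :
    GG y n (j + 1) = GG y n j + ((2 : ℝ) ^ n)⁻¹ • y n j := by
  unfold GG
  rw [Finset.sum_range_succ, smul_add]

theorem GG_two (y : ℕ → ℕ → X)
    (hy : ∀ n j, y n j = (2 : ℝ)⁻¹ • (y (n + 1) (2 * j) + y (n + 1) (2 * j + 1))) (n j : ℕ) :
    GG y (n + 1) (2 * j) = GG y n j := by
  unfold GG
  have h : ∑ i ∈ range (2 * j), y (n + 1) i = (2 : ℝ) • ∑ i ∈ range j, y n i := by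
    induction j with
    | zero => simp
    | succ j ih =>
      rw [show 2 * (j + 1) = 2 * j + 1 + 1 by ring, Finset.sum_range_succ, Finset.sum_range_succ, ih,
        Finset.sum_range_succ, smul_add, add_assoc, hy n j, smul_smul]
      norm_num
  rw [h, smul_smul]
  congr 1
  rw [pow_succ]
  field_simp

theorem GG_pow (y : ℕ → ℕ → X)
    (hy : ∀ n j, y n j = (2 : ℝ)⁻¹ • (y (n + 1) (2 * j) + y (n + 1) (2 * j + 1))) (n j m : ℕ) :
    GG y (n + m) (2 ^ m * j) = GG y n j := by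
  induction m with
  | zero => simp
  | succ m ih =>
    rw [← add_assoc, show 2 ^ (m + 1) * j = 2 * (2 ^ m * j) by ring, GG_two y hy, ih]

theorem GG_lip (y : ℕ → ℕ → X) (hb : ∀ n j, ‖y n j‖ ≤ 1) (n j m : ℕ) :
    ‖GG y n (j + m) - GG y n j‖ ≤ ((2 : ℝ) ^ n)⁻¹ * m := by
  induction m with
  | zero => simp
  | succ m ih =>
    have h : GG y n (j + (m + 1)) - GG y n j =
        (GG y n (j + m) - GG y n j) + ((2 : ℝ) ^ n)⁻¹ • y n (j + m) := by
      rw [← add_assoc, GG_succ]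
      abel
    rw [h]
    refine (norm_add_le _ _).trans ?_
    rw [norm_smul, Real.norm_of_nonneg (by positivity : (0 : ℝ) ≤ ((2 : ℝ) ^ n)⁻¹)]
    have h1 : ((2 : ℝ) ^ n)⁻¹ * ‖y n (j + m)‖ ≤ ((2 : ℝ) ^ n)⁻¹ * 1 :=
      mul_le_mul_of_nonneg_left (hb _ _) (by positivity)
    push_cast
    linarith

theorem GG_lip' (y : ℕ → ℕ → X) (hb : ∀ n j, ‖y n j‖ ≤ 1) (n j k : ℕ) :
    ‖GG y n j - GG y n k‖ ≤ ((2 : ℝ) ^ n)⁻¹ * |(j : ℝ) - k| := by
  rcases le_total k j with h | h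
  · obtain ⟨m, rfl⟩ := Nat.exists_eq_add_of_le h
    refine (GG_lip y hb n k m).trans (le_of_eq ?_)
    push_cast
    rw [add_sub_cancel_left, abs_of_nonneg (Nat.cast_nonneg m)]
  · obtain ⟨m, rfl⟩ := Nat.exists_eq_add_of_le h
    rw [norm_sub_rev]
    refine (GG_lip y hb n j m).trans (le_of_eq ?_)
    push_cast
    rw [abs_sub_comm, add_sub_cancel_left, abs_of_nonneg (Nat.cast_nonneg m)]

/-- the floors of two real numbers -/
theorem floor_abs (a b : ℝ) : |(⌊a⌋₊ : ℝ) - ⌊b⌋₊| ≤ |a - b| + 1 := by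
  have key : ∀ a b : ℝ, a ≤ b → |(⌊a⌋₊ : ℝ) - ⌊b⌋₊| ≤ |a - b| + 1 := by
    intro a b hab
    have h1 : ⌊a⌋₊ ≤ ⌊b⌋₊ := Nat.floor_mono hab
    have h1' : (⌊a⌋₊ : ℝ) ≤ ⌊b⌋₊ := by exact_mod_cast h1
    rw [abs_sub_comm, abs_of_nonneg (by linarith), abs_sub_comm, abs_of_nonneg (by linarith)]
    rcases le_total 0 b with hb | hb
    · have h2 : (⌊b⌋₊ : ℝ) ≤ b := Nat.floor_le hb
      have h3 : a < ⌊a⌋₊ + 1 := Nat.lt_floor_add_one a
      linarith
    · have h2 : ⌊b⌋₊ = 0 := Nat.floor_of_nonpos hb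
      have h3 : (0 : ℝ) ≤ ⌊a⌋₊ := Nat.cast_nonneg _
      rw [h2]
      push_cast
      linarith
  rcases le_total a b with h | h
  · exact key a b h
  · rw [abs_sub_comm, abs_sub_comm a b]
    exact key b a h

theorem floor_two (a : ℝ) : 2 * ⌊a⌋₊ ≤ ⌊2 * a⌋₊ ∧ ⌊2 * a⌋₊ ≤ 2 * ⌊a⌋₊ + 1 := by
  rcases le_or_gt 0 a with ha | ha
  · have h1 : (⌊a⌋₊ : ℝ) ≤ a := Nat.floor_le ha
    have h2 : a < ⌊a⌋₊ + 1 := Nat.lt_floor_add_one a
    constructor
    · refine Nat.le_floor ?_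
      push_cast
      linarith
    · have h3 : ⌊2 * a⌋₊ < 2 * ⌊a⌋₊ + 2 := by
        rw [Nat.floor_lt (by linarith)]
        push_cast
        linarith
      omega
  · have h1 : ⌊a⌋₊ = 0 := Nat.floor_of_nonpos ha.le
    have h2 : ⌊2 * a⌋₊ = 0 := Nat.floor_of_nonpos (by linarith)
    rw [h1, h2]
    exact ⟨le_refl _, by norm_num⟩

theorem gn_step (y : ℕ → ℕ → X) (hb : ∀ n j, ‖y n j‖ ≤ 1)
    (hy : ∀ n j, y n j = (2 : ℝ)⁻¹ • (y (n + 1) (2 * j) + y (n + 1) (2 * j + 1))) (t : ℝ) (n : ℕ) :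
    ‖gn y t (n + 1) - gn y t n‖ ≤ ((2 : ℝ) ^ (n + 1))⁻¹ := by
  unfold gn
  rw [← GG_two y hy n ⌊(2 : ℝ) ^ n * t⌋₊, show (2 : ℝ) ^ (n + 1) * t = 2 * (2 ^ n * t) by ring]
  obtain ⟨h1, h2⟩ := floor_two ((2 : ℝ) ^ n * t)
  obtain ⟨m, hm⟩ := Nat.exists_eq_add_of_le h1
  rw [hm]
  refine (GG_lip y hb (n + 1) _ m).trans ?_
  have hm1 : m ≤ 1 := by omega
  have hm1' : (m : ℝ) ≤ 1 := by exact_mod_cast hm1
  calc ((2 : ℝ) ^ (n + 1))⁻¹ * m ≤ ((2 : ℝ) ^ (n + 1))⁻¹ * 1 :=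
        mul_le_mul_of_nonneg_left hm1' (by positivity)
    _ = _ := mul_one _

theorem gn_cauchy (y : ℕ → ℕ → X) (hb : ∀ n j, ‖y n j‖ ≤ 1)
    (hy : ∀ n j, y n j = (2 : ℝ)⁻¹ • (y (n + 1) (2 * j) + y (n + 1) (2 * j + 1))) (t : ℝ) :
    CauchySeq (gn y t) := by
  refine cauchySeq_of_le_geometric (1 / 2) 1 (by norm_num) fun n => ?_
  rw [dist_comm, dist_eq_norm]
  refine (gn_step y hb hy t n).trans ?_
  rw [one_mul, one_div, inv_pow]
  exact inv_anti₀ (by positivity) (pow_le_pow_right₀ (by norm_num) (Nat.le_succ n))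

theorem gn_dyadic (y : ℕ → ℕ → X)
    (hy : ∀ n j, y n j = (2 : ℝ)⁻¹ • (y (n + 1) (2 * j) + y (n + 1) (2 * j + 1))) (n j m : ℕ) :
    gn y ((j : ℝ) / 2 ^ n) (n + m) = GG y n j := by
  unfold gn
  have h : (2 : ℝ) ^ (n + m) * ((j : ℝ) / 2 ^ n) = ((2 ^ m * j : ℕ) : ℝ) := by
    push_cast
    rw [pow_add]
    field_simp
  rw [h, Nat.floor_natCast, GG_pow y hy]

/-- a differentiable function at a point between `a` and `b` -/
theorem straddle {g : ℝ → X} {w : X} {t : ℝ} (h : HasDerivAt g w t) {ε : ℝ} (hε : 0 < ε) :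
    ∃ η : ℝ, 0 < η ∧ ∀ a b : ℝ, a ≤ t → t ≤ b → t - a < η → b - t < η →
      ‖g b - g a - (b - a) • w‖ ≤ ε * (b - a) := by
  have h1 := h.isLittleO
  rw [Asymptotics.isLittleO_iff] at h1
  have h2 := h1 hε
  rw [Metric.eventually_nhds_iff] at h2
  obtain ⟨η, hη, h3⟩ := h2
  refine ⟨η, hη, fun a b ha hb ha' hb' => ?_⟩
  have h4 : ‖g a - g t - (a - t) • w‖ ≤ ε * (t - a) := by
    have := h3 (y := a) (by rw [Real.dist_eq, abs_sub_comm, abs_of_nonneg (by linarith)]; exact ha')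
    rw [Real.norm_eq_abs, abs_sub_comm, abs_of_nonneg (by linarith)] at this
    exact this
  have h5 : ‖g b - g t - (b - t) • w‖ ≤ ε * (b - t) := by
    have := h3 (y := b) (by rw [Real.dist_eq, abs_of_nonneg (by linarith)]; exact hb')
    rw [Real.norm_eq_abs, abs_of_nonneg (by linarith : 0 ≤ b - t)] at this
    exact this
  have h6 : g b - g a - (b - a) • w =
      (g b - g t - (b - t) • w) - (g a - g t - (a - t) • w) := by
    rw [sub_smul, sub_smul, sub_smul]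
    abel
  rw [h6]
  refine (norm_sub_le _ _).trans ?_
  linarith

theorem cur : CurStmt := by
  intro X _ _ _ Z y δ hZ hδ hyZ hb hy hsep
  have hc := fun t => cauchySeq_tendsto_of_complete (gn_cauchy y hb hy t)
  choose g hg using hc
  have hgd : ∀ n j : ℕ, g ((j : ℝ) / 2 ^ n) = GG y n j := by
    intro n j
    have h1 : Tendsto (fun m => gn y ((j : ℝ) / 2 ^ n) (n + m)) atTop (𝓝 (g ((j : ℝ) / 2 ^ n))) := by
      have := (tendsto_add_atTop_iff_nat n).2 (hg ((j : ℝ) / 2 ^ n))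
      simpa [add_comm] using this
    have h2 : Tendsto (fun m => gn y ((j : ℝ) / 2 ^ n) (n + m)) atTop (𝓝 (GG y n j)) := by
      simp only [gn_dyadic y hy n j]
      exact tendsto_const_nhds
    exact tendsto_nhds_unique h1 h2
  have hquo : ∀ n j : ℕ, (2 : ℝ) ^ n • (g (((j : ℝ) + 1) / 2 ^ n) - g ((j : ℝ) / 2 ^ n)) = y n j := by
    intro n j
    have h1 : g (((j : ℝ) + 1) / 2 ^ n) = GG y n (j + 1) := by
      have := hgd n (j + 1)
      push_cast at this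
      exact this
    rw [h1, hgd, GG_succ, add_sub_cancel_left, smul_smul, mul_inv_cancel₀ (by positivity), one_smul]
  refine ⟨g, ?_, ?_, ?_, hquo⟩
  · intro t
    have hmem : ∀ n, gn y t n ∈ (Z : Set X) := by
      intro n
      unfold gn GG
      exact Z.smul_mem _ (Z.sum_mem fun i _ => hyZ n i)
    exact hZ.mem_of_tendsto (hg t) (Filter.Eventually.of_forall hmem)
  · refine LipschitzWith.of_dist_le_mul fun s t => ?_
    rw [NNReal.coe_one, one_mul, dist_eq_norm, Real.dist_eq]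
    have h1 : Tendsto (fun n => ‖gn y s n - gn y t n‖) atTop (𝓝 ‖g s - g t‖) :=
      ((hg s).sub (hg t)).norm
    have h2 : Tendsto (fun n : ℕ => |s - t| + ((1 : ℝ) / 2) ^ n) atTop (𝓝 (|s - t| + 0)) :=
      tendsto_const_nhds.add (tendsto_pow_atTop_nhds_zero_of_lt_one (by norm_num) (by norm_num))
    rw [add_zero] at h2
    refine le_of_tendsto_of_tendsto' h1 h2 fun n => ?_
    refine (GG_lip' y hb n _ _).trans ?_
    have h3 := floor_abs ((2 : ℝ) ^ n * s) ((2 : ℝ) ^ n * t)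
    have h4 : |(2 : ℝ) ^ n * s - (2 : ℝ) ^ n * t| = (2 : ℝ) ^ n * |s - t| := by
      rw [← mul_sub, abs_mul, abs_of_pos (by positivity : (0 : ℝ) < 2 ^ n)]
    rw [h4] at h3
    calc ((2 : ℝ) ^ n)⁻¹ * |(⌊(2 : ℝ) ^ n * s⌋₊ : ℝ) - ⌊(2 : ℝ) ^ n * t⌋₊|
        ≤ ((2 : ℝ) ^ n)⁻¹ * ((2 : ℝ) ^ n * |s - t| + 1) :=
          mul_le_mul_of_nonneg_left h3 (by positivity)
      _ = |s - t| + (1 / 2) ^ n := by
          rw [one_div, inv_pow]
          field_simp
  · intro t ht hdiff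
    have hder := hdiff.hasDerivAt
    set w := deriv g t with hw
    obtain ⟨η, hη, hst⟩ := straddle hder (show (0 : ℝ) < δ / 8 by linarith)
    obtain ⟨n, hn⟩ := exists_pow_lt_of_lt_one hη (show (1 / 2 : ℝ) < 1 by norm_num)
    -- the node of level `m` containing `t`
    have hnode : ∀ m : ℕ, n ≤ m → ‖y m ⌊(2 : ℝ) ^ m * t⌋₊ - w‖ ≤ δ / 8 := by
      intro m hm
      set j := ⌊(2 : ℝ) ^ m * t⌋₊ with hj
      have hpos : (0 : ℝ) < 2 ^ m := by positivity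
      have h1 : (j : ℝ) ≤ 2 ^ m * t := Nat.floor_le (by positivity)
      have h2 : 2 ^ m * t < j + 1 := Nat.lt_floor_add_one _
      have ha : (j : ℝ) / 2 ^ m ≤ t := by
        rw [div_le_iff₀ hpos]
        linarith
      have hb' : t ≤ ((j + 1 : ℕ) : ℝ) / 2 ^ m := by
        rw [le_div_iff₀ hpos]
        push_cast
        linarith
      have hlen : ((j + 1 : ℕ) : ℝ) / 2 ^ m - (j : ℝ) / 2 ^ m = (2 ^ m)⁻¹ := by
        push_cast
        field_simp
        ring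
      have hsmall : ((2 : ℝ) ^ m)⁻¹ < η := by
        refine lt_of_le_of_lt ?_ hn
        rw [one_div, inv_pow]
        exact inv_anti₀ (by positivity) (pow_le_pow_right₀ (by norm_num) hm)
      have h3 := hst ((j : ℝ) / 2 ^ m) (((j + 1 : ℕ) : ℝ) / 2 ^ m) ha hb' (by linarith)
        (by linarith)
      rw [hlen, hgd, hgd, GG_succ, add_sub_cancel_left, ← smul_sub, norm_smul,
        Real.norm_of_nonneg (by positivity : (0 : ℝ) ≤ ((2 : ℝ) ^ m)⁻¹)] at h3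
      have h4 : ((2 : ℝ) ^ m)⁻¹ * ‖y m j - w‖ ≤ ((2 : ℝ) ^ m)⁻¹ * (δ / 8) := by linarith
      exact le_of_mul_le_mul_left h4 (by positivity)
    have hA := hnode n le_rfl
    have hB := hnode (n + 1) (Nat.le_succ n)
    set j := ⌊(2 : ℝ) ^ n * t⌋₊ with hj
    obtain ⟨h1, h2⟩ := floor_two ((2 : ℝ) ^ n * t)
    rw [show (2 : ℝ) ^ (n + 1) * t = 2 * (2 ^ n * t) by ring] at hB
    have hpar := hy n j
    have hs := hsep n j
    have h2y : (2 : ℝ) • y n j = y (n + 1) (2 * j) + y (n + 1) (2 * j + 1) := by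
      rw [hpar, smul_smul]
      norm_num
    have hcases : ⌊2 * ((2 : ℝ) ^ n * t)⌋₊ = 2 * j ∨ ⌊2 * ((2 : ℝ) ^ n * t)⌋₊ = 2 * j + 1 := by
      omega
    rcases hcases with h | h
    · rw [h] at hB
      have h5 : y (n + 1) (2 * j) - y (n + 1) (2 * j + 1) =
          (2 : ℝ) • (y (n + 1) (2 * j) - w) - (2 : ℝ) • (y n j - w) := by
        rw [smul_sub, smul_sub, h2y, two_smul ℝ (y (n + 1) (2 * j))]
        abel
      rw [h5] at hs
      have h6 := (hs.trans (norm_sub_le _ _))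
      rw [norm_smul, norm_smul, Real.norm_of_nonneg (by norm_num : (0 : ℝ) ≤ 2)] at h6
      linarith
    · rw [h] at hB
      have h5 : y (n + 1) (2 * j) - y (n + 1) (2 * j + 1) =
          (2 : ℝ) • (y n j - w) - (2 : ℝ) • (y (n + 1) (2 * j + 1) - w) := by
        rw [smul_sub, smul_sub, h2y, two_smul ℝ (y (n + 1) (2 * j + 1))]
        abel
      rw [h5] at hs
      have h6 := (hs.trans (norm_sub_le _ _))
      rw [norm_smul, norm_smul, Real.norm_of_nonneg (by norm_num : (0 : ℝ) ≤ 2)] at h6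
      linarith

end Pool.Agent.BC.H36
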