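import Pool.Agent.Helper36_BC.Mar

/-!
# BC, module ISO: Jensen's inequality in all the coordinates but one
-/

set_option autoImplicit false

open Finset

noncomputable section

namespace Pool.Agent.BC.H36

/-- Jensen's inequality for the square of the norm and the uniform mean -/
theorem jen_sq {V : Type} [NormedAddCommGroup V] [NormedSpace ℝ V] {B : Type} [Fintype B]
    [Nonempty B] (v : B → V) :
    ‖((Fintype.card B : ℕ) : ℝ)⁻¹ • ∑ b, v b‖ ^ 2 ≤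
      ((Fintype.card B : ℕ) : ℝ)⁻¹ * ∑ b, ‖v b‖ ^ 2 := by
  have hB : (0 : ℝ) < ((Fintype.card B : ℕ) : ℝ) := by
    have : 0 < Fintype.card B := Fintype.card_pos
    exact_mod_cast this
  have h1 : ‖∑ b, v b‖ ≤ ∑ b, ‖v b‖ := norm_sum_le _ _
  have h2 : (∑ b, ‖v b‖) ^ 2 ≤ ((Fintype.card B : ℕ) : ℝ) * ∑ b, ‖v b‖ ^ 2 := by
    have := sq_sum_le_card_mul_sum_sq (s := (Finset.univ : Finset B)) (f := fun b => ‖v b‖)
    simpa using this
  have h3 : ‖∑ b, v b‖ ^ 2 ≤ ((Fintype.card B : ℕ) : ℝ) * ∑ b, ‖v b‖ ^ 2 :=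
    le_trans (pow_le_pow_left₀ (norm_nonneg _) h1 2) h2
  rw [norm_smul, mul_pow, Real.norm_of_nonneg (inv_nonneg.2 hB.le)]
  have h4 : (((Fintype.card B : ℕ) : ℝ)⁻¹) ^ 2 * ‖∑ b, v b‖ ^ 2 ≤
      (((Fintype.card B : ℕ) : ℝ)⁻¹) ^ 2 * (((Fintype.card B : ℕ) : ℝ) * ∑ b, ‖v b‖ ^ 2) :=
    mul_le_mul_of_nonneg_left h3 (by positivity)
  refine h4.trans (le_of_eq ?_)
  field_simp

theorem iso : IsoStmt := by
  intro V _ _ t m Z c i
  let A := Fin (2 ^ m)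
  let I := {j : Fin t // j ≠ i}
  have hcA : ((Fintype.card A : ℕ) : ℝ) = (2 : ℝ) ^ m := by simp [A]
  have hct : ((Fintype.card (Fin t → A) : ℕ) : ℝ) = ((2 : ℝ) ^ m) ^ t := by simp [A]
  have hct' : ((Fintype.card (Fin t → A) : ℕ) : ℝ) =
      ((Fintype.card A : ℕ) : ℝ) * ((Fintype.card (I → A) : ℕ) : ℝ) := by
    rw [Fintype.card_congr (Equiv.funSplitAt i A), Fintype.card_prod]
    push_cast
    rfl
  have hI0 : ((Fintype.card (I → A) : ℕ) : ℝ) ≠ 0 := by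
    have : 0 < Fintype.card (I → A) := Fintype.card_pos
    positivity
  have hA0 : ((Fintype.card A : ℕ) : ℝ) ≠ 0 := by
    have : 0 < Fintype.card A := Fintype.card_pos
    positivity
  unfold av
  have h1 : ∑ r : Fin t → Fin (2 ^ m), ‖∑ l, Z l (dt m c r l)‖ ^ 2 =
      ∑ a : A, ∑ r' : I → A,
        ‖(∑ l : I, Z l.1 (2 ^ m * c l.1 + ((r' l : A) : ℕ))) + Z i (2 ^ m * c i + (a : ℕ))‖ ^ 2 := by
    rw [Fintype.sum_equiv (Equiv.funSplitAt i A) (fun r => ‖∑ l, Z l (dt m c r l)‖ ^ 2)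
      (fun q => ‖(∑ l : I, Z l.1 (2 ^ m * c l.1 + ((q.2 l : A) : ℕ))) +
        Z i (2 ^ m * c i + (q.1 : ℕ))‖ ^ 2) ?_, Fintype.sum_prod_type]
    intro r
    congr 2
    have h2 : ∑ l, Z l (dt m c r l) = Z i (dt m c r i) + ∑ l ∈ univ.erase i, Z l (dt m c r l) :=
      (Finset.add_sum_erase univ (fun l => Z l (dt m c r l)) (Finset.mem_univ i)).symm
    have h3 : ∑ l ∈ univ.erase i, Z l (dt m c r l) =
        ∑ l : I, Z l.1 (dt m c r l.1) := by
      refine Finset.sum_subtype (univ.erase i) (fun x => ?_) (fun l => Z l (dt m c r l))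
      simp
    rw [h2, h3, add_comm]
    rfl
  have h4 : ∀ a : A, ‖(∑ l ∈ univ.erase i, av1 m (Z l) (c l)) + Z i (2 ^ m * c i + (a : ℕ))‖ ^ 2 ≤
      ((Fintype.card (I → A) : ℕ) : ℝ)⁻¹ * ∑ r' : I → A,
        ‖(∑ l : I, Z l.1 (2 ^ m * c l.1 + ((r' l : A) : ℕ))) +
          Z i (2 ^ m * c i + (a : ℕ))‖ ^ 2 := by
    intro a
    have h5 := jen_sq (fun r' : I → A => (∑ l : I, Z l.1 (2 ^ m * c l.1 + ((r' l : A) : ℕ))) +
          Z i (2 ^ m * c i + (a : ℕ)))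
    have h6 : ((Fintype.card (I → A) : ℕ) : ℝ)⁻¹ • ∑ r' : I → A,
        ((∑ l : I, Z l.1 (2 ^ m * c l.1 + ((r' l : A) : ℕ))) + Z i (2 ^ m * c i + (a : ℕ))) =
        (∑ l ∈ univ.erase i, av1 m (Z l) (c l)) + Z i (2 ^ m * c i + (a : ℕ)) := by
      rw [Finset.sum_add_distrib, smul_add]
      congr 1
      · rw [Finset.sum_comm, Finset.smul_sum]
        have h7 : ∑ l ∈ univ.erase i, av1 m (Z l) (c l) = ∑ l : I, av1 m (Z l.1) (c l.1) := by
          refine Finset.sum_subtype (univ.erase i) (fun x => ?_) (fun l => av1 m (Z l) (c l))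
          simp
        rw [h7]
        refine Finset.sum_congr rfl fun l _ => ?_
        have h8 := marg (V := V) (A := A) l (fun a : A => Z l.1 (2 ^ m * c l.1 + ((a : A) : ℕ)))
        rw [hcA] at h8
        exact h8
      · rw [Finset.sum_const, Finset.card_univ, ← Nat.cast_smul_eq_nsmul ℝ, smul_smul,
          inv_mul_cancel₀ hI0, one_smul]
    rw [h6] at h5
    exact h5
  have h9 : av1 m (fun k => ‖(∑ l ∈ univ.erase i, av1 m (Z l) (c l)) + Z i k‖ ^ 2) (c i) ≤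
      ((2 : ℝ) ^ m)⁻¹ * ∑ a : A, (((Fintype.card (I → A) : ℕ) : ℝ)⁻¹ * ∑ r' : I → A,
        ‖(∑ l : I, Z l.1 (2 ^ m * c l.1 + ((r' l : A) : ℕ))) +
          Z i (2 ^ m * c i + (a : ℕ))‖ ^ 2) := by
    unfold av1
    rw [smul_eq_mul]
    refine mul_le_mul_of_nonneg_left ?_ (by positivity)
    exact Finset.sum_le_sum fun a _ => h4 a
  refine h9.trans (le_of_eq ?_)
  rw [h1, smul_eq_mul, ← hct, hct', hcA, ← Finset.mul_sum]
  rw [mul_inv, mul_assoc]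

end Pool.Agent.BC.H36
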