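import Pool.Agent.BC.Stmts

/-!
# BC, module MAR: marginals of the averages
-/

set_option autoImplicit false

open Finset

noncomputable section

namespace Pool.Agent.BC.H36

/-- the mean of a function of one coordinate -/
theorem marg {V : Type} [NormedAddCommGroup V] [NormedSpace ℝ V] {ι A : Type} [Fintype ι]
    [DecidableEq ι] [Fintype A] [Nonempty A] (l : ι) (g : A → V) :
    ((Fintype.card (ι → A) : ℕ) : ℝ)⁻¹ • ∑ r : ι → A, g (r l) =
      ((Fintype.card A : ℕ) : ℝ)⁻¹ • ∑ a : A, g a := by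
  have h1 : ∑ r : ι → A, g (r l) =
      ((Fintype.card ({j // j ≠ l} → A) : ℕ) : ℝ) • ∑ a : A, g a := by
    rw [Fintype.sum_equiv (Equiv.funSplitAt l A) (fun r => g (r l)) (fun q => g q.1)
      (fun r => rfl), Fintype.sum_prod_type, Finset.smul_sum]
    refine Finset.sum_congr rfl fun a _ => ?_
    show ∑ _y : {j // j ≠ l} → A, g a = _
    rw [Finset.sum_const, Finset.card_univ, ← Nat.cast_smul_eq_nsmul ℝ]
  have h2 : Fintype.card (ι → A) = Fintype.card A * Fintype.card ({j // j ≠ l} → A) := by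
    rw [Fintype.card_congr (Equiv.funSplitAt l A), Fintype.card_prod]
  have h3 : ((Fintype.card ({j // j ≠ l} → A) : ℕ) : ℝ) ≠ 0 := by
    have : 0 < Fintype.card ({j // j ≠ l} → A) := Fintype.card_pos
    positivity
  have h4 : ((Fintype.card A : ℕ) : ℝ) ≠ 0 := by
    have : 0 < Fintype.card A := Fintype.card_pos
    positivity
  rw [h1, h2, smul_smul]
  congr 1
  push_cast
  field_simp

theorem mar : MarStmt := by
  intro V _ _ m
  have key : ∀ (t t' : ℕ) (e : Fin t → Fin t'), Function.Injective e →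
      ∀ (G : (Fin t → ℤ) → V) (c : Fin t' → ℤ), av m (fun d => G (d ∘ e)) c = av m G (c ∘ e) := by
    intro t t' e he G c
    unfold av
    let A := Fin (2 ^ m)
    let E : (Fin t' → A) ≃ (Fin t → A) × ({i : Fin t' // ¬ i ∈ Set.range e} → A) :=
      (Equiv.piEquivPiSubtypeProd (fun i => i ∈ Set.range e) (fun _ => A)).trans
        (Equiv.prodCongr (Equiv.arrowCongr (Equiv.ofInjective e he).symm (Equiv.refl A))
          (Equiv.refl _))
    have hE : ∀ r : Fin t' → A, (E r).1 = r ∘ e := by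
      intro r
      funext i
      rfl
    have h1 : ∑ r : Fin t' → Fin (2 ^ m), G (dt m c r ∘ e) =
        ((Fintype.card ({i : Fin t' // ¬ i ∈ Set.range e} → A) : ℕ) : ℝ) •
          ∑ r : Fin t → Fin (2 ^ m), G (dt m (c ∘ e) r) := by
      rw [Fintype.sum_equiv E (fun r => G (dt m c r ∘ e)) (fun q => G (dt m (c ∘ e) q.1))
        (fun r => by rw [hE r]; rfl), Fintype.sum_prod_type, Finset.smul_sum]
      refine Finset.sum_congr rfl fun a _ => ?_
      show ∑ _y : {i : Fin t' // ¬ i ∈ Set.range e} → A, G (dt m (c ∘ e) a) = _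
      rw [Finset.sum_const, Finset.card_univ, ← Nat.cast_smul_eq_nsmul ℝ]
    have h2 : (2 ^ m) ^ t' = (2 ^ m) ^ t *
        Fintype.card ({i : Fin t' // ¬ i ∈ Set.range e} → A) := by
      have := Fintype.card_congr E
      rw [Fintype.card_prod] at this
      simpa [A] using this
    have h2' : ((2 : ℝ) ^ m) ^ t' = ((2 : ℝ) ^ m) ^ t *
        ((Fintype.card ({i : Fin t' // ¬ i ∈ Set.range e} → A) : ℕ) : ℝ) := by
      exact_mod_cast h2
    have h3 : ((Fintype.card ({i : Fin t' // ¬ i ∈ Set.range e} → A) : ℕ) : ℝ) ≠ 0 := by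
      intro h0
      rw [h0, mul_zero] at h2'
      exact absurd h2' (by positivity)
    rw [h1, h2', smul_smul]
    congr 1
    field_simp
  refine ⟨key, ?_⟩
  intro t i g c
  have he : Function.Injective (fun _ : Fin 1 => i) := fun a b _ => Subsingleton.elim a b
  have h := key 1 t (fun _ => i) he (fun d => g (d 0)) c
  have h' : av m (fun d : Fin t → ℤ => g (d i)) c =
      av m (fun d : Fin 1 → ℤ => g (d 0)) (c ∘ fun _ : Fin 1 => i) := h
  rw [h']
  unfold av av1
  rw [pow_one]
  congr 1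
  rw [Fintype.sum_equiv (Equiv.funUnique (Fin 1) (Fin (2 ^ m)))
    (fun r => g (dt m (c ∘ fun _ : Fin 1 => i) r 0))
    (fun k => g (2 ^ m * c i + (k : ℕ))) (fun r => rfl)]

end Pool.Agent.BC.H36
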